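import Pool.Agent.W_MP_a5173a_lc.LowerBound
import Pool.Agent.W_MP_a5173a_lc.Upper

namespace Pool.Agent.Results.MP_a5173a_lc.LogTight

open Pool.Agent.W_MP_a5173a_lc Asymptotics

/-- The best competitive ratio of deterministic online algorithms for restricted assignment with
unknown running times and restarts is of order `log m`. -/
theorem result :
    (∀ m : ℕ, 2 ≤ m →
      Real.log m / 2 ≤ cstar m ∧ cstar m ≤ 2 * (Nat.log 2 m : ℝ) + 5) ∧
    cstar =Θ[Filter.atTop] (fun m : ℕ => Real.log m) := by
  have main : ∀ m : ℕ, 2 ≤ m →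
      Real.log m / 2 ≤ cstar m ∧ cstar m ≤ 2 * (Nat.log 2 m : ℝ) + 5 := by
    intro m hm
    constructor
    · refine le_csInf (s := {c : ℝ | ∃ A : OnlineAlgorithm m, Competitive A c})
        ⟨_, greedyAlg m, greedy_competitive m⟩ ?_
      rintro c ⟨A, hA⟩
      exact lower_bound m hm A c hA
    · refine csInf_le (s := {c : ℝ | ∃ A : OnlineAlgorithm m, Competitive A c}) ?_ ?_
      · refine ⟨Real.log m / 2, ?_⟩
        rintro c ⟨A, hA⟩
        exact lower_bound m hm A c hA
      · exact ⟨greedyAlg m, greedy_competitive m⟩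
  refine ⟨main, ?_, ?_⟩
  · apply IsBigO.of_bound 11
    filter_upwards [Filter.eventually_ge_atTop 2] with m hm
    obtain ⟨h1, h2⟩ := main m hm
    have hm1 : (2 : ℝ) ≤ m := by exact_mod_cast hm
    have hlog2 : (0.6931471803 : ℝ) < Real.log 2 := Real.log_two_gt_d9
    have hlog : Real.log 2 ≤ Real.log m := Real.log_le_log (by norm_num) hm1
    have h3 : (Nat.log 2 m : ℝ) * Real.log 2 ≤ Real.log m := by
      rw [← Real.log_pow]
      apply Real.log_le_log (by positivity)
      have := Nat.pow_log_le_self 2 (x := m) (by omega)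
      exact_mod_cast this
    rw [Real.norm_of_nonneg (by linarith), Real.norm_of_nonneg (by linarith)]
    nlinarith
  · apply IsBigO.of_bound 2
    filter_upwards [Filter.eventually_ge_atTop 2] with m hm
    obtain ⟨h1, h2⟩ := main m hm
    have hm1 : (2 : ℝ) ≤ m := by exact_mod_cast hm
    have hlog : 0 ≤ Real.log m := Real.log_nonneg (by linarith)
    rw [Real.norm_of_nonneg (by linarith), Real.norm_of_nonneg (by linarith)]
    linarith

end Pool.Agent.Results.MP_a5173a_lc.LogTight
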